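import Pool.Agent.Lib.MP_af3a4a_an.P1.H77.Fin
import Pool.Agent.Lib.MP_af3a4a_an.P1.H77.Own

/-!
# Borcea's `p`-variance inequality for every `p ≥ 1` and every degree

`h(F, F') ≤ σ_p(F)` for every complex polynomial `F` of degree at least two and every
`p ∈ [1, ∞]`: every zero `ζ` of `F` has a critical point `w` whose distance from `ζ` is at most the
`p`-th power mean of the distances of the zeros of `F` from `c`, for every centre `c` and every
`p ≥ 1`, and at most the radius of every closed disc that contains all zeros of `F` (Sendov's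
conjecture, the case `p = ∞`).
-/

set_option autoImplicit false

namespace Pool.Agent.Results.MP_af3a4a_an.Borcea

/-- Every zero `ζ` of a complex polynomial `F` of degree `n ≥ 2` has a critical point `w` of `F`
such that `|ζ - w| ≤ ((1/n) ∑ |ξ - c|^p)^(1/p)` for every centre `c` and every real `p ≥ 1`, where
`ξ` runs over the zeros of `F` with multiplicity, and `|ζ - w| ≤ r` whenever all zeros of `F` lie in
a closed disc of radius `r`. -/
theorem result : ∀ F : Polynomial ℂ, 2 ≤ F.natDegree → ∀ ζ : ℂ, F.IsRoot ζ →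
    ∃ w : ℂ, (Polynomial.derivative F).IsRoot w ∧
      (∀ (c : ℂ) (p : ℝ), 1 ≤ p →
        ‖ζ - w‖ ≤ ((F.roots.map fun ξ => ‖ξ - c‖ ^ p).sum / F.natDegree) ^ (1 / p)) ∧
      ∀ (c : ℂ) (r : ℝ), (∀ ξ : ℂ, F.IsRoot ξ → ‖ξ - c‖ ≤ r) → ‖ζ - w‖ ≤ r :=
  fun F hF ζ hζ => Pool.Agent.Lib.MP_af3a4a_an.P1.H77.of_prod
    (Pool.Agent.Lib.MP_af3a4a_an.P1.H80.main_of_final2 Pool.Agent.Lib.MP_af3a4a_an.P1.H77.final2)
    F hF ζ hζ

end Pool.Agent.Results.MP_af3a4a_an.Borcea
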